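import Pool.Agent.Helper75.Torus.Goals

/-!
# Torus: if the direction has changed then the amplitude is large
-/

set_option autoImplicit false

open Set MeasureTheory Matrix Filter

namespace Pool.Agent.Helper3.Torus

open Pool.Agent.Helper75.Torus
open Pool.Agent.Helper75.Flow (curlL)

theorem integrand_cont {η : E → ℝ} {κ b : E} {δ τ : ℝ} {v : E → E} (hv : Continuous v) (x : E)
    (lam : ℝ) (J : E →L[ℝ] E) (hT : Continuous (Tf η κ δ τ b)) :
    Continuous (fun Y => v (x + lam⁻¹ • J Y) ⬝ᵥ J (Tf η κ δ τ b Y)) := by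
  have h1 : Continuous (fun Y : E => v (x + lam⁻¹ • J Y)) :=
    hv.comp (continuous_const.add (J.continuous.const_smul lam⁻¹))
  have h2 : Continuous (fun Y : E => J (Tf η κ δ τ b Y)) := J.continuous.comp hT
  simp only [dotProduct]
  refine continuous_finsetSum _ fun i _ => ?_
  exact ((continuous_apply i).comp h1).mul ((continuous_apply i).comp h2)

theorem integrand_int {η : E → ℝ} {κ b : E} {δ τ : ℝ} {v : E → E} (hv : Continuous v) (x : E)
    (lam : ℝ) (J : E →L[ℝ] E) (hT : Continuous (Tf η κ δ τ b))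
    (hc : HasCompactSupport (Tf η κ δ τ b)) :
    Integrable (fun Y => v (x + lam⁻¹ • J Y) ⬝ᵥ J (Tf η κ δ τ b Y)) := by
  refine (integrand_cont hv x lam J hT).integrable_of_hasCompactSupport ?_
  refine hc.mono ?_
  intro Y hY
  rw [Function.mem_support] at hY ⊢
  intro h0
  apply hY
  rw [h0]
  simp

theorem pair_add {α : ℝ} {η : E → ℝ} {κ b : E} {δ τ : ℝ} {v w : E → E} (hv : Continuous v)
    (hw : Continuous w) (x : E) (lam : ℝ) (J : E →L[ℝ] E) (hT : Continuous (Tf η κ δ τ b))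
    (hc : HasCompactSupport (Tf η κ δ τ b)) :
    pair α η (fun y => v y + w y) x lam J κ δ τ b =
      pair α η v x lam J κ δ τ b + pair α η w x lam J κ δ τ b := by
  unfold pair
  rw [← mul_add, ← integral_add (integrand_int hv x lam J hT hc) (integrand_int hw x lam J hT hc)]
  congr 1
  refine integral_congr_ae (Filter.Eventually.of_forall fun Y => ?_)
  simp only [add_dotProduct]

theorem continuous_of_hol {α H : ℝ} {f : E → E} (h : ∀ i, Hol α H (fun z => f z i)) :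
    Continuous f := continuous_pi fun i => (h i).1.continuous

theorem term_cont (α : ℝ) (N m : ℕ) : Continuous (term α N m) := by
  unfold term
  have h : Continuous (fun x : E => xi N m ⬝ᵥ x) := by
    simp only [dotProduct]
    exact continuous_finsetSum _ fun i _ => continuous_const.mul (continuous_apply i)
  exact (continuous_const.mul (Real.continuous_cos.comp h)).smul continuous_const

theorem dir_dot (n : ℕ) : 1 ≤ dir n ⬝ᵥ dir n := by
  have h8 : n % 8 < 8 := Nat.mod_lt _ (by norm_num)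
  unfold dir
  have : n % 8 = 0 ∨ n % 8 = 1 ∨ n % 8 = 2 ∨ n % 8 = 3 ∨ n % 8 = 4 ∨ n % 8 = 5 ∨ n % 8 = 6 ∨
    n % 8 = 7 := by omega
  have e1 : (![1, 0, 0] : E) ⬝ᵥ ![1, 0, 0] = 1 := by
    rw [dotProduct, Fin.sum_univ_three]
    show (1 : ℝ) * 1 + 0 * 0 + 0 * 0 = 1
    norm_num
  have e2 : (![0, 1, 0] : E) ⬝ᵥ ![0, 1, 0] = 1 := by
    rw [dotProduct, Fin.sum_univ_three]
    show (0 : ℝ) * 0 + 1 * 1 + 0 * 0 = 1
    norm_num
  have e3 : (![0, 0, 1] : E) ⬝ᵥ ![0, 0, 1] = 1 := by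
    rw [dotProduct, Fin.sum_univ_three]
    show (0 : ℝ) * 0 + 0 * 0 + 1 * 1 = 1
    norm_num
  have e4 : (![1, 1, 1] : E) ⬝ᵥ ![1, 1, 1] = 3 := by
    rw [dotProduct, Fin.sum_univ_three]
    show (1 : ℝ) * 1 + 1 * 1 + 1 * 1 = 3
    norm_num
  rcases this with h | h | h | h | h | h | h | h <;> rw [h]
  · exact e1.ge
  · exact e1.ge
  · exact e2.ge
  · exact e2.ge
  · exact e3.ge
  · exact e3.ge
  · show 1 ≤ (![1, 1, 1] : E) ⬝ᵥ ![1, 1, 1]
    rw [e4]; norm_num
  · show 1 ≤ (![1, 1, 1] : E) ⬝ᵥ ![1, 1, 1]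
    rw [e4]; norm_num

theorem nn_dir (n : ℕ) : 1 ≤ nn (dir n) := by
  unfold nn
  rw [← Real.sqrt_one]
  exact Real.sqrt_le_sqrt (by simpa using dir_dot n)

theorem kap_unit (n : ℕ) : kap n ⬝ᵥ kap n = 1 := by
  have h1 := nn_dir n
  have h2 : nn (dir n) * nn (dir n) = dir n ⬝ᵥ dir n := by
    unfold nn
    exact Real.mul_self_sqrt (le_trans zero_le_one (dir_dot n))
  have h0 : nn (dir n) ≠ 0 := by linarith
  unfold kap
  rw [smul_dotProduct, dotProduct_smul, ← h2]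
  simp only [smul_eq_mul]
  field_simp

theorem lamn_ge {N : ℕ} (hN : 4 ≤ N) (n : ℕ) : (n : ℝ) + 1 ≤ lamn N n := by
  unfold lamn
  have h1 : (4 : ℝ) ≤ N := by exact_mod_cast hN
  have h2 : (n : ℝ) + 1 ≤ (N : ℝ) ^ (n ^ 2) := by
    have h3 : n + 1 ≤ 4 ^ (n ^ 2) := by
      have h4 : n ^ 2 < 4 ^ (n ^ 2) := Nat.lt_pow_self (by norm_num)
      have h5 : n ≤ n ^ 2 := by nlinarith [Nat.zero_le n, sq_nonneg (n : ℤ), Nat.le_self_pow (by norm_num : 2 ≠ 0) n]
      omega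
    have h6 : ((n : ℝ) + 1) ≤ (4 : ℝ) ^ (n ^ 2) := by exact_mod_cast h3
    exact h6.trans (pow_le_pow_left₀ (by norm_num) h1 _)
  have h7 := nn_dir n
  have h8 : (0 : ℝ) ≤ (N : ℝ) ^ (n ^ 2) := by positivity
  nlinarith

theorem lamn_tendsto {N : ℕ} (hN : 4 ≤ N) : Tendsto (fun n => lamn N n) atTop atTop := by
  refine tendsto_atTop_mono (lamn_ge hN) ?_
  exact tendsto_atTop_add_const_right _ _ tendsto_natCast_atTop_atTop

theorem cof_id (hC : G_COF) (κ : E) : cofv (ContinuousLinearMap.id ℝ E) κ = κ := by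
  have h := (hC (ContinuousLinearMap.id ℝ E) (by simp [ContinuousLinearMap.det])).1 κ
  funext i
  have hi := h (ee i)
  simpa [ee] using hi

theorem thm (hE : G_EVO) (hPB : G_PB) (hN : G_SGN) (hI : G_SGI) (hT : G_SGT) (hB : G_BETA2)
    (hC : G_COF) (hA : G_T1A) : G_RELA := by
  intro α N η hα0 hα1 hN1 hN2 hη
  obtain ⟨C₀, hC0, hP⟩ := hPB α η hα0 hα1 hη
  refine ⟨C₀, hC0, ?_⟩
  intro t K u g p φ J ht hL ε hε0 hε1 hu0 hut X r β hβ hne1 hne2
  set κ := kap r with hκ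
  have hκ1 : κ ⬝ᵥ κ = 1 := kap_unit r
  have hJc : ContinuousOn (fun s => J s X) (Icc 0 t) := by
    have h1 : ContinuousOn (fun s : ℝ => (s, X)) (Icc 0 t) := by fun_prop
    exact hL.jcont.comp h1 (fun s hs => ⟨hs, mem_univ _⟩)
  have h0m : (0 : ℝ) ∈ Icc 0 t := ⟨le_rfl, ht⟩
  have htm : t ∈ Icc (0 : ℝ) t := ⟨ht, le_rfl⟩
  have hb := hB t (fun s => J s X) κ _ β β ht hJc (hL.jdet X) hκ1 hβ hβ
  have hb0 : κ ⬝ᵥ β 0 = 0 := (hb 0 h0m).1
  have hbt : κ ⬝ᵥ β t = 0 := (hb t htm).1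
  have hdid : (ContinuousLinearMap.id ℝ E).det = 1 := by simp [ContinuousLinearMap.det]
  have hdt : (J t X).det = 1 := hL.jdet X t htm
  have hnκ : nn (cofv (ContinuousLinearMap.id ℝ E) κ) = 1 := by
    rw [cof_id hC]
    unfold nn
    rw [hκ1, Real.sqrt_one]
  obtain ⟨_, hA2⟩ := hA η κ hη hκ1
  -- continuity of the fields
  have hcu0 : Continuous (u 0) := continuous_of_hol (hL.hol 0 h0m)
  have hcut : Continuous (u t) := continuous_of_hol (hL.hol t htm)
  have hcd0 : Continuous (fun z => u 0 z - v0 α N z) := continuous_of_hol hu0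
  have hcdt : Continuous (fun z => u t z - v0 α N z) := continuous_of_hol hut
  have hcv : Continuous (v0 α N) := by
    have h1 : Continuous (fun z => u 0 z - (u 0 z - v0 α N z)) := hcu0.sub hcd0
    have h2 : (fun z => u 0 z - (u 0 z - v0 α N z)) = v0 α N := by
      funext z
      exact sub_sub_cancel _ _
    rwa [h2] at h1
  have key : ∀ ρ : ℝ, 0 < ρ → (1 / 2) * |pol r ⬝ᵥ β 0| * ∫ Y, η Y ≤
      C₀ * ε * (nn (β 0) + nn (J t X (β t)) * (nn (cofv (J t X) κ)) ^ (-(1 + α))) + 8 * ρ := by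
    intro ρ hρ
    obtain ⟨C, hCE⟩ := hE α t K u g p φ J η hα0 hα1 ht hL hη X κ β hκ1 hβ
    obtain ⟨δ1, hδ1, hP1⟩ := hP κ (β 0) (ContinuousLinearMap.id ℝ E) hκ1 hb0 hdid ρ hρ
    obtain ⟨δ2, hδ2, hP2⟩ := hP κ (β t) (J t X) hκ1 hbt hdt ρ hρ
    obtain ⟨δ3, hδ3, hI1⟩ := hI α N η hα0 hα1 hN2 hη (β 0) r ρ hb0 hρ
    obtain ⟨δ4, hδ4, hT1⟩ := hT α N η hα0 hα1 hN2 hη (β t) (J t X) r ρ hρ hne1 hne2
    obtain ⟨δ, hδ, hd1, hd2, hd3, hd4, hCδ⟩ : ∃ δ ∈ Ioc (0 : ℝ) 1, δ ≤ δ1 ∧ δ ≤ δ2 ∧ δ ≤ δ3 ∧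
        δ ≤ δ4 ∧ C * δ ≤ ρ := by
      have hq : 0 < ρ / (|C| + 1) := by positivity
      refine ⟨min 1 (min δ1 (min δ2 (min δ3 (min δ4 (ρ / (|C| + 1)))))), ⟨?_, min_le_left _ _⟩,
        ?_, ?_, ?_, ?_, ?_⟩
      · exact lt_min one_pos (lt_min hδ1 (lt_min hδ2 (lt_min hδ3 (lt_min hδ4 hq))))
      · exact (min_le_right _ _).trans (min_le_left _ _)
      · exact (min_le_right _ _).trans ((min_le_right _ _).trans (min_le_left _ _))
      · exact (min_le_right _ _).trans ((min_le_right _ _).trans ((min_le_right _ _).trans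
          (min_le_left _ _)))
      · exact (min_le_right _ _).trans ((min_le_right _ _).trans ((min_le_right _ _).trans
          ((min_le_right _ _).trans (min_le_left _ _))))
      · set d := min 1 (min δ1 (min δ2 (min δ3 (min δ4 (ρ / (|C| + 1)))))) with hd
        have h1 : d ≤ ρ / (|C| + 1) := (min_le_right _ _).trans ((min_le_right _ _).trans
          ((min_le_right _ _).trans ((min_le_right _ _).trans (min_le_right _ _))))
        have h0 : 0 < d := lt_min one_pos (lt_min hδ1 (lt_min hδ2 (lt_min hδ3 (lt_min hδ4 hq))))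
        have h2 : d * (|C| + 1) ≤ ρ := by
          rwa [le_div_iff₀ (by positivity)] at h1
        have h3 : C * d ≤ |C| * d := mul_le_mul_of_nonneg_right (le_abs_self _) h0.le
        nlinarith
    obtain ⟨D, hD⟩ := hCE δ hδ
    obtain ⟨m1, hm1⟩ := hN α N η hα0 hα1 hN1 hN2 hη κ (β 0) (ContinuousLinearMap.id ℝ E) δ ρ hκ1
      hδ hρ
    obtain ⟨m2, hm2⟩ := hN α N η hα0 hα1 hN1 hN2 hη κ (β t) (J t X) δ ρ hκ1 hδ hρ
    have hlim : Tendsto (fun m => D * (lamn N m) ^ (-α)) atTop (nhds (D * 0)) :=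
      ((tendsto_rpow_neg_atTop hα0).comp (lamn_tendsto hN2)).const_mul D
    rw [mul_zero] at hlim
    have hev : ∀ᶠ m in atTop, D * (lamn N m) ^ (-α) ≤ ρ := by
      have := hlim.eventually (gt_mem_nhds hρ)
      exact this.mono fun m hm => le_of_lt hm
    obtain ⟨m3, hm3⟩ := eventually_atTop.1 hev
    obtain ⟨m, hmr, hma, hmb, hmc⟩ : ∃ m : ℕ, m % 8 = r % 8 ∧ m1 ≤ m ∧ m2 ≤ m ∧ m3 ≤ m :=
      ⟨8 * (m1 + m2 + m3) + r % 8, by omega, by omega, by omega, by omega⟩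
    have hlam1 : 1 ≤ lamn N m := by
      have := lamn_ge hN2 m
      have h0 : (0 : ℝ) ≤ m := Nat.cast_nonneg _
      linarith
    have hlam0 : 0 < lamn N m := by linarith
    set lam := lamn N m with hlam
    set τ := xi N m ⬝ᵥ X with hτ
    obtain ⟨hA3, _, _, _, _, _⟩ := hA2 δ hδ τ
    have hcm := term_cont α N m
    have hcvm : Continuous (fun y => v0 α N y - term α N m y) := hcv.sub hcm
    -- decomposition
    have dec : ∀ (w : E → E) (x b : E) (J' : E →L[ℝ] E), Continuous (fun z => w z - v0 α N z) →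
        pair α η w x lam J' κ δ τ b = pair α η (term α N m) x lam J' κ δ τ b +
          pair α η (fun y => v0 α N y - term α N m y) x lam J' κ δ τ b +
          pair α η (fun y => w y - v0 α N y) x lam J' κ δ τ b := by
      intro w x b J' hw
      obtain ⟨hs1, hs2, _, _⟩ := hA3 b
      have hsum : Continuous (fun y => term α N m y + (v0 α N y - term α N m y)) :=
        hcm.add hcvm
      rw [← pair_add hcm hcvm x lam J' hs1.continuous hs2,
        ← pair_add hsum hw x lam J' hs1.continuous hs2]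
      congr 1
      funext y
      abel
    have d0 := dec (u 0) X (β 0) (ContinuousLinearMap.id ℝ E) hcd0
    have dt := dec (u t) (φ t X) (β t) (J t X) hcdt
    have e1 := hI1 δ hδ hd3 m X hmr
    have e2 := hm1 m hma X τ
    have e3 := hP1 δ hδ hd1 ε (fun y => u 0 y - v0 α N y) X lam τ hε0 hε1 hlam0 hu0
    have e4 := hT1 δ hδ hd4 m (φ t X) τ hmr
    have e5 := hm2 m hmb (φ t X) τ
    have e6 := hP2 δ hδ hd2 ε (fun y => u t y - v0 α N y) (φ t X) lam τ hε0 hε1 hlam0 hut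
    have e7 := hD lam hlam1 τ
    have e8 : D * lam ^ (-α) ≤ ρ := hm3 m hmc
    rw [hnκ, Real.one_rpow, mul_one] at e3
    have hid : nn ((ContinuousLinearMap.id ℝ E) (β 0)) = nn (β 0) := rfl
    rw [hid] at e3
    have hη0 : 0 < ∫ Y, η Y := hη.2.2
    have hgoal : (1 / 2) * |pol r ⬝ᵥ β 0| * ∫ Y, η Y =
        |(1 / 2) * (pol r ⬝ᵥ β 0) * ∫ Y, η Y| := by
      rw [abs_mul, abs_mul, abs_of_pos hη0, abs_of_pos (by norm_num : (0 : ℝ) < 1 / 2)]
    rw [hgoal]
    set A := (1 / 2) * (pol r ⬝ᵥ β 0) * ∫ Y, η Y with hAdef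
    set a1 := pair α η (term α N m) X lam (ContinuousLinearMap.id ℝ E) κ δ τ (β 0) with ha1
    set a2 := pair α η (fun y => v0 α N y - term α N m y) X lam (ContinuousLinearMap.id ℝ E) κ δ τ
      (β 0) with ha2
    set a3 := pair α η (fun y => u 0 y - v0 α N y) X lam (ContinuousLinearMap.id ℝ E) κ δ τ
      (β 0) with ha3
    set a4 := pair α η (term α N m) (φ t X) lam (J t X) κ δ τ (β t) with ha4
    set a5 := pair α η (fun y => v0 α N y - term α N m y) (φ t X) lam (J t X) κ δ τ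
      (β t) with ha5
    set a6 := pair α η (fun y => u t y - v0 α N y) (φ t X) lam (J t X) κ δ τ
      (β t) with ha6
    rw [d0, dt] at e7
    rw [abs_le] at e1 e2 e3 e4 e5 e6 e7
    rw [abs_le]
    have hr : C₀ * ε * (nn (β 0) + nn (J t X (β t)) * (nn (cofv (J t X) κ)) ^ (-(1 + α))) =
        C₀ * ε * nn (β 0) + C₀ * ε * nn (J t X (β t)) * (nn (cofv (J t X) κ)) ^ (-(1 + α)) := by
      ring
    rw [hr]
    constructor
    · linarith [e1.1, e1.2, e2.1, e2.2, e3.1, e3.2, e4.1, e4.2, e5.1, e5.2, e6.1, e6.2, e7.1, e7.2]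
    · linarith [e1.1, e1.2, e2.1, e2.2, e3.1, e3.2, e4.1, e4.2, e5.1, e5.2, e6.1, e6.2, e7.1, e7.2]
  refine le_of_forall_pos_le_add fun e he => ?_
  have := key (e / 8) (by positivity)
  linarith

end Pool.Agent.Helper3.Torus
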